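import Pool.Agent.K4H40.NS.Main

/-!
# MP_233bd3_co: the second largest value of `m_{k+1}` does not occur

A `k`-neighborly simplicial `2k`-sphere with `n ≥ 2k+3` vertices has at most `C(n-k-3,k)` missing
`(k+1)`-faces.  Here: the number is never `C(n-k-3,k) - 1`.

The first part of the theorem is about all `k`-neighborly complexes whose Stanley-Reisner ring, over some
field, has a Lefschetz system (`Sys`): `2k+1` linear forms `θ` that are a regular sequence on `K[Δ]` with
a Poincare duality quotient `A` of socle degree `2k+1`, and a linear form `ω` with `ω : A_k → A_{k+1}`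
injective.  Every simplicial `2k`-sphere has such a system by published theorems (Adiprasito,
Papadakis-Petrotou, Karu-Xiao); this is the hypothesis `SpheresHaveSystems` of the second part.
-/

set_option autoImplicit false

namespace Pool.Agent.Results.MP_233bd3_co.SecondLargestValue

open Pool.Agent.K4H40.NS

theorem result :
    (∀ (n k : ℕ), 1 ≤ k → 2 * k + 3 ≤ n → ∀ Δ : Cplx n, Neighborly k Δ →
      ∀ (K : Type) [Field K], Sys n k K (SR K Δ) → mcount Δ (k + 1) ≠ (n - k - 3).choose k - 1) ∧
    (SpheresHaveSystems →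
      (∀ (n k : ℕ), 1 ≤ k → 2 * k + 3 ≤ n → ∀ Δ : Cplx n, IsSphere (2 * k) Δ → Neighborly k Δ →
        mcount Δ (k + 1) ≠ (n - k - 3).choose k - 1) ∧ ¬ AllValuesOccur) :=
  ⟨fun n k hk hn Δ hΔ K _ s => main n k hk hn Δ hΔ K s,
    fun h => q1_of_main (fun n k hk hn Δ hΔ K _ s => main n k hk hn Δ hΔ K s) h⟩

end Pool.Agent.Results.MP_233bd3_co.SecondLargestValue
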